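import Mathlib
import Pool.Agent.NIPFields.LU.Strong
import Pool.Agent.NIPFields.NA.Final
import Pool.Agent.NFF.FunctionFields

set_option autoImplicit false

open FirstOrder FirstOrder.Language FirstOrder.Ring Polynomial

universe u

/-- Let `K` be a field of characteristic `p ≥ 0`. Suppose that `K` is large and
* `p > 0` and `K` is strongly dependent, or
* `K` is NIP and algebraic over a finitely generated subfield, which is the field of rational
  numbers if `p = 0`, or
* `p > 0`, `K` is NIP and there are finite separable extensions `L` of `K` and `M` of `L` such that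
  some element of `L` is not a norm from `M`,

or that
* `p = 0`, `K` is NIP and generated by a subfield `F` and a finite set, not all elements of `K` are
  algebraic over `F`, and `K` is not finite over any `F(u)`, or `F` is not algebraically closed and
  its algebraic closure is not of degree `2` over `F`.

Then `K` is separably closed, or `p = 0` and the algebraic closure of `K` has degree `2`, or
`K` has a nontrivial henselian valuation ring which is definable with parameters.

Strongly dependent: for no sequence `φ₀(x; y), φ₁(x; y), …` of formulas of the language of rings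
(`x` a fixed finite tuple of variables) are there, for all `N`, parameters `b i j` with `i, j < N`
such that for every function `η` from `{0, …, N-1}` to itself there is a tuple `x` with
`φ i (x; b i j) ↔ η i = j` for all `i, j`. -/
theorem Pool.Agent.NFF.Draft.LargeStrong.result
    (p : ℕ) (K : Type u) [Field K] [CharP K p] [CompatibleRing K]
    (hK :
      ((∀ f : K[X][X],
        (∃ x y : K, f.evalEval x y = 0 ∧ (Polynomial.derivative f).evalEval x y ≠ 0) →
          {v : K × K | f.evalEval v.1 v.2 = 0}.Infinite) ∧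
        ((0 < p ∧ ∀ (m : ℕ) (φ : ℕ → Language.ring.Formula (Fin m ⊕ ℕ)), ∃ N : ℕ,
          ∀ b : Fin N → Fin N → ℕ → K, ∃ η : Fin N → Fin N, ∀ x : Fin m → K,
            ∃ i j : Fin N, ¬ ((φ i).Realize (Sum.elim x (b i j)) ↔ η i = j)) ∨
        ((∀ (m k : ℕ) (φ : Language.ring.Formula (Fin m ⊕ Fin k)),
          ∃ n : ℕ, ∀ (a : Fin n → Fin m → K) (b : Finset (Fin n) → Fin k → K),
            ∃ (i : Fin n) (J : Finset (Fin n)),
              ¬ (φ.Realize (Sum.elim (a i) (b J)) ↔ i ∈ J)) ∧
          ((∃ S : Finset K, (p = 0 → S = ∅) ∧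
            Algebra.IsAlgebraic (Subfield.closure (S : Set K)) K) ∨
          (0 < p ∧ ∃ (L M : Type u) (_ : Field L) (_ : Field M) (_ : Algebra K L) (_ : Algebra L M),
            FiniteDimensional K L ∧ Algebra.IsSeparable K L ∧ FiniteDimensional L M ∧
              Algebra.IsSeparable L M ∧ ∃ x : L, ∀ y : M, Algebra.norm L y ≠ x))))) ∨
      (p = 0 ∧
        (∀ (m k : ℕ) (φ : Language.ring.Formula (Fin m ⊕ Fin k)),
          ∃ n : ℕ, ∀ (a : Fin n → Fin m → K) (b : Finset (Fin n) → Fin k → K),
            ∃ (i : Fin n) (J : Finset (Fin n)),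
              ¬ (φ.Realize (Sum.elim (a i) (b J)) ↔ i ∈ J)) ∧
        ∃ (F : Subfield K) (S : Finset K), Subfield.closure ((F : Set K) ∪ (S : Set K)) = ⊤ ∧
          (∃ x : K, Transcendental F x) ∧
          ((∀ u : K, ¬ FiniteDimensional (IntermediateField.adjoin F {u}) K) ∨
            (¬ IsAlgClosed F ∧ Module.finrank F (AlgebraicClosure F) ≠ 2)))) :
    IsSepClosed K ∨ (p = 0 ∧ Module.finrank K (AlgebraicClosure K) = 2) ∨
      ∃ O : ValuationSubring K, O ≠ ⊤ ∧ HenselianLocalRing O ∧
        ∃ (m : ℕ) (ψ : Language.ring.Formula (Fin 1 ⊕ Fin m)) (c : Fin m → K),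
          ∀ x : K, x ∈ O ↔ ψ.Realize (Sum.elim (fun _ => x) c) := by
  rcases hK with ⟨hlarge, hK⟩ | ⟨rfl, hK, F, S, hS, hx, hF⟩
  · have h : IsSepClosed K ∨ (p = 0 ∧ Module.finrank K (AlgebraicClosure K) = 2) ∨
        ∃ O : ValuationSubring K, O ≠ ⊤ ∧ HenselianLocalRing O ∧
          (Set.univ : Set K).Definable₁ Language.ring {x | x ∈ O} := by
      rcases CharP.char_is_prime_or_zero K p with hp | rfl
      · have : Fact p.Prime := ⟨hp⟩
        have h1 : IsSepClosed K ∨ ∃ O : ValuationSubring K, O ≠ ⊤ ∧ HenselianLocalRing O ∧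
            (Set.univ : Set K).Definable₁ Language.ring {x | x ∈ O} := by
          rcases hK with ⟨_, hK⟩ | ⟨hK, ⟨S, _, hS⟩ | ⟨_, L, M, _, _, _, _, _, _, _, _, x, hx⟩⟩
          · exact Pool.Agent.NIPFields.LG.shelah_of_large_strong (p := p) hK hlarge
          · exact Pool.Agent.NIPFields.LG.shelah_of_large_algebraic (p := p) hK hlarge S hS
          · exact Or.inr (Pool.Agent.NIPFields.NA.exists_definable_of_norm (p := p) hK hlarge x hx)
        rcases h1 with h1 | h1
        · exact Or.inl h1
        · exact Or.inr (Or.inr h1)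
      · have : CharZero K := CharP.charP_to_charZero K
        rcases hK with ⟨h0, _⟩ | ⟨hK, ⟨S, hS0, hS⟩ | ⟨h0, _⟩⟩
        · exact absurd h0 (lt_irrefl 0)
        · obtain rfl := hS0 rfl
          rw [Finset.coe_empty] at hS
          rcases Pool.Agent.NIPFields.LU.shelah_of_large_algebraic0 hK hlarge
            (Pool.Agent.NIPFields.LU.isAlgebraic_int_of_prime hS) with h1 | h1 | h1
          · exact Or.inl h1
          · exact Or.inr (Or.inl ⟨rfl, h1⟩)
          · exact Or.inr (Or.inr h1)
        · exact absurd h0 (lt_irrefl 0)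
    rcases h with h | h | ⟨O, h1, h2, h3⟩
    · exact Or.inl h
    · exact Or.inr (Or.inl h)
    · exact Or.inr (Or.inr ⟨O, h1, h2, Pool.Agent.NIPFields.exists_formula_of_definable h3⟩)
  · exfalso
    have : CharZero K := CharP.charP_to_charZero K
    obtain ⟨⟨u, _, hu⟩, h1⟩ := Pool.Agent.NFF.function_fields K hK F S hS hx
    rcases hF with hF | ⟨hF1, hF2⟩
    · exact hF u hu
    · rcases h1 with h1 | h1
      · exact hF1 h1
      · exact hF2 h1
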